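import Mathlib
import Pool.Agent.Work.MP_6eef91_an.Defs
import Pool.Agent.Work.MP_6eef91_an.NoFactor

set_option autoImplicit false

open Pool.Agent.Work.MP_6eef91_an

/-- Question 2 has a negative answer: for every dimension `d ≥ 3` and every even `n ≥ 10 ^ 9` there
is a `ℤ^d` avoshift of entropy `log n` with no factor map onto the `n`-symbol full shift. -/
theorem Pool.Agent.Results.MP_6eef91_an.EqualEntropy.result :
    ∀ d : ℕ, 3 ≤ d → ∀ n : ℕ, 10 ^ 9 ≤ n → Even n →
      ∃ (A : Type) (_ : Finite A) (_ : TopologicalSpace A) (_ : DiscreteTopology A)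
        (X : Set (Config d A)), IsAvoshift X ∧ HasEntropy X (Real.log n) ∧
          ∀ π : X → Config d (Fin n), ¬ IsFactorMapOntoFullShift X n π := by
  intro d hd n hn hev
  obtain ⟨m, rfl⟩ : ∃ m, d = m + 3 := ⟨d - 3, by omega⟩
  exact ⟨Sym n, inferInstance, inferInstance, inferInstance, XS m n,
    isAvoshift_XS m (le_trans (by norm_num) hn), entropy_XS m hn hev, no_factor m hn hev⟩
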